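import Mathlib
import Pool.Agent.H635PF.Main

set_option autoImplicit false

/-!
# Finitely generated normal subgroups of parafree groups (MP_f3dc04_al, Q1)

A nontrivial normal subgroup of infinite index of a parafree group is not finitely generated.
There is no finiteness assumption on the parafree group.

Proof idea: if `N` is a finitely generated infinite normal subgroup of `P` and `P` has many
cocycles with values in the permutation modules `ℝ[R]` of its finite `p`-quotients `R`, then a
finite-level inequality (operators `1 - (1 - M Mᵀ / Λ)^(2m)` with entries supported on a fixed finite
subset of `N`, in place of the `L²`-Betti numbers) bounds the index of `N`.  The cocycles come from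
the universal property of a parafree group with respect to nilpotent groups.
-/

namespace Pool.Agent.Results.MP_f3dc04_al.NormalSubgroups

/-- A group `P` is parafree if it is residually nilpotent and there is a free group `FreeGroup X`
with the same lower central quotients.  (Mathlib's `lowerCentralSeries n` is `γ_{n+1}`.) -/
def IsParafree (P : Type) [Group P] : Prop :=
  (⨅ n : ℕ, (⊤ : Subgroup P).lowerCentralSeries n) = ⊥ ∧
    ∃ X : Type, ∀ n : ℕ, Nonempty
      ((P ⧸ (⊤ : Subgroup P).lowerCentralSeries n) ≃*
        (FreeGroup X ⧸ (⊤ : Subgroup (FreeGroup X)).lowerCentralSeries n))

/-- **Theorem.** Let `P` be a parafree group (not necessarily finitely generated) and `N` a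
nontrivial normal subgroup of infinite index.  Then `N` is not finitely generated. -/
theorem result (P : Type) [Group P] (hP : IsParafree P) (N : Subgroup P) [N.Normal]
    (hN : N ≠ ⊥) (hi : N.index = 0) : ¬ N.FG :=
  Pool.Agent.H635PF.not_fg_of_parafree P hP N hN hi

end Pool.Agent.Results.MP_f3dc04_al.NormalSubgroups
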